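import Mathlib
import Pool.Agent.Helper17.FF.PicDiv
import Pool.Agent.Helper17.FF.Princ

/-!
# Normal forms of functions all of whose orders are divisible by `n`
-/

set_option autoImplicit false
set_option linter.unusedSectionVars false

namespace Pool.Agent.M.FT9

open VC FF WithZero Polynomial IntermediateField

universe u

variable {k F : Type u} [Field k] [IsAlgClosed k] [Field F] [Algebra k F]
  (hF : IsFunctionField k F)

include hF

/-- Every divisor of degree `0` becomes effective and rigid after adding a small multiple of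
`∞`. -/
theorem exists_norm {g : ℕ} (hg : IsGenus k F g) (O : Place k F) {D : Place k F →₀ ℤ}
    (hD : deg D = 0) :
    ∃ (m : ℕ) (l : F), m ≤ g ∧ l ≠ 0 ∧
      (∀ P, 0 ≤ (D + dv hF l + Finsupp.single O (m : ℤ)) P) ∧
      ell (D + dv hF l + Finsupp.single O (m : ℤ)) = 1 := by
  classical
  have hex : ∃ m : ℕ, 0 < ell (D + Finsupp.single O (m : ℤ)) := by
    refine ⟨g, ?_⟩
    have h1 := ell_ge hg (D + Finsupp.single O (g : ℤ))
    rw [map_add, hD, deg_single] at h1
    omega
  have hfind := Nat.find_spec hex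
  set m := Nat.find hex with hm
  have hmg : m ≤ g := by
    apply Nat.find_min' hex
    have h1 := ell_ge hg (D + Finsupp.single O (g : ℤ))
    rw [map_add, hD, deg_single] at h1
    omega
  have hle : ell (D + Finsupp.single O (m : ℤ)) ≤ 1 := by
    rcases Nat.eq_zero_or_pos m with h0 | h0
    · rw [h0, Nat.cast_zero, Finsupp.single_zero, add_zero]
      exact ell_le_one_of_deg_zero hF hD
    · obtain ⟨m', hm'⟩ : ∃ m', m = m' + 1 := ⟨m - 1, by omega⟩
      have h1 : ¬ 0 < ell (D + Finsupp.single O (m' : ℤ)) := Nat.find_min hex (by omega)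
      have h2 := ell_add_single hF (D + Finsupp.single O (m' : ℤ)) O
      rw [add_assoc, ← Finsupp.single_add] at h2
      rw [hm']
      push_cast
      omega
  obtain ⟨E, l, hl, hE, hE'⟩ := exists_effective hF hfind
  have e : D + dv hF l + Finsupp.single O (m : ℤ) = E := by rw [hE']; abel
  refine ⟨m, l, hmg, hl, ?_, ?_⟩
  · rw [e]; exact hE
  · rw [e, hE', ell_add_dv hF _ hl]
    omega

/-- Generators of an effective divisor. -/
theorem exists_gens {g : ℕ} (hg : IsGenus k F g) (O : Place k F) (m : ℕ) :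
    ∃ N0 : ℕ, ∀ N : ℕ, N0 ≤ N → ∀ A : Place k F →₀ ℤ, (∀ P, 0 ≤ A P) → deg A = m →
      ∃ a b : F, a ≠ 0 ∧ b ≠ 0 ∧ a ∈ riemannRochSpace k F (Finsupp.single O (N : ℤ)) ∧
        b ∈ riemannRochSpace k F (Finsupp.single O (N : ℤ)) ∧
        (∀ P, P ≠ O → A P ≤ ord P.ring a) ∧ (∀ P, P ≠ O → A P ≤ ord P.ring b) ∧
        ∀ P, P ≠ O → ord P.ring a = A P ∨ ord P.ring b = A P := by
  classical
  obtain ⟨c, hc⟩ := ell_eq_of_large hF hg
  refine ⟨(c + m + g + 2).toNat, fun N hN A hA hdeg => ?_⟩
  set X : Place k F →₀ ℤ := Finsupp.single O (N : ℤ) - A with hX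
  have hdX : deg X = N - m := by rw [hX, map_sub, deg_single, hdeg]
  have hN' : c + m + g + 2 ≤ (N : ℤ) := by omega
  have hellX : (ell X : ℤ) = N - m + 1 - g := by
    rw [hc X (by rw [hdX]; omega), hdX]
  have hXO : ∀ P, P ≠ O → X P = - A P := by
    intro P hP
    rw [hX, Finsupp.sub_apply, Finsupp.single_apply, if_neg (Ne.symm hP), zero_sub]
  have hmemN : ∀ f ∈ riemannRochSpace k F X, f ∈ riemannRochSpace k F (Finsupp.single O (N : ℤ)) := by
    intro f hf
    refine rr_mono hF (fun P => ?_) hf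
    rw [hX, Finsupp.sub_apply]
    have := hA P
    omega
  have hge : ∀ f ∈ riemannRochSpace k F X, f ≠ 0 → ∀ P, P ≠ O → A P ≤ ord P.ring f := by
    intro f hf hf0 P hP
    have h1 := (mem_rr hF X hf0).mp hf P
    rw [hXO P hP] at h1
    omega
  -- drop
  have hdrop : ∀ P : Place k F, riemannRochSpace k F (X - Finsupp.single P 1) <
      riemannRochSpace k F X := by
    intro P
    have hfd := finite_rr hF X
    have hfd2 := finite_rr hF (X - Finsupp.single P 1)
    refine lt_of_le_of_ne (rr_mono hF fun Q => ?_) fun h => ?_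
    · rw [Finsupp.sub_apply, Finsupp.single_apply]
      split_ifs <;> omega
    · have hd : deg (X - Finsupp.single P 1) = N - m - 1 := by
        rw [map_sub, hdX, deg_single]
      have h1 := hc (X - Finsupp.single P 1) (by rw [hd]; omega)
      unfold ell at h1 hellX
      rw [h, hellX, hd] at h1
      omega
  -- avoidance
  have havoid : ∀ S : Finset (Place k F), ∃ b ∈ riemannRochSpace k F X,
      ∀ P ∈ S, b ∉ riemannRochSpace k F (X - Finsupp.single P 1) := by
    intro S
    have hk : Infinite k := IsAlgClosed.instInfinite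
    let p : Place k F → Subspace k (riemannRochSpace k F X) := fun P =>
      (riemannRochSpace k F (X - Finsupp.single P 1)).comap (riemannRochSpace k F X).subtype
    have htop : (⊤ : Subspace k (riemannRochSpace k F X)) ∉ S.image p := by
      intro h
      obtain ⟨P, -, hP⟩ := Finset.mem_image.mp h
      apply (hdrop P).not_ge
      intro y hy
      have h1 : (⟨y, hy⟩ : riemannRochSpace k F X) ∈ p P := by rw [hP]; exact Submodule.mem_top
      exact h1
    have h2 := Subspace.biUnion_ne_univ_of_top_notMem htop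
    obtain ⟨b, hb⟩ := (Set.ne_univ_iff_exists_notMem _).mp h2
    refine ⟨b, b.2, fun P hP hbP => hb ?_⟩
    rw [Set.mem_iUnion₂]
    exact ⟨p P, Finset.mem_image_of_mem _ hP, hbP⟩
  obtain ⟨a, haX, haO⟩ := havoid {O}
  have ha0 : a ≠ 0 := by
    rintro rfl
    exact haO O (Finset.mem_singleton_self _) (Submodule.zero_mem _)
  have hfin : {P : Place k F | P ≠ O ∧ ord P.ring a ≠ A P}.Finite := by
    refine ((finite_support_ord hF ha0).union A.finite_support).subset ?_
    rintro P ⟨hPO, hP⟩
    by_cases h0 : ord P.ring a = 0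
    · right
      rw [Function.mem_support]
      intro h1
      exact hP (by rw [h0, h1])
    · left
      exact h0
  obtain ⟨b, hbX, hbS⟩ := havoid (insert O hfin.toFinset)
  have hb0 : b ≠ 0 := by
    rintro rfl
    exact hbS O (Finset.mem_insert_self _ _) (Submodule.zero_mem _)
  refine ⟨a, b, ha0, hb0, hmemN a haX, hmemN b hbX, hge a haX ha0, hge b hbX hb0, ?_⟩
  intro P hPO
  by_contra hcon
  push Not at hcon
  apply hbS P (Finset.mem_insert_of_mem (hfin.mem_toFinset.mpr ⟨hPO, hcon.1⟩))
  rw [mem_rr hF _ hb0]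
  intro Q
  have h1 := (mem_rr hF X hb0).mp hbX Q
  rw [Finsupp.sub_apply, Finsupp.single_apply]
  split_ifs with hPQ
  · subst hPQ
    have h2 := hge b hbX hb0 P hPO
    have h3 := hcon.2
    rw [hXO P hPO] at h1 ⊢
    omega
  · omega

/-- The rigid form of a function. -/
theorem eq_smul_of_pow {O : Place k F} {A : Place k F →₀ ℤ} (hA : ∀ P, 0 ≤ A P) (hA1 : ell A = 1)
    {n m : ℕ} (hn : 0 < n) {f : F} (hf : f ≠ 0)
    (hdiv : ∀ P, ord P.ring f = n * A P - Finsupp.single O ((n * m : ℕ) : ℤ) P)
    {G w : F} (hG : G ∈ riemannRochSpace k F (Finsupp.single O ((n * m : ℕ) : ℤ)))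
    (hw : w ∈ riemannRochSpace k F (Finsupp.single O ((n * m : ℕ) : ℤ)))
    (h : G ^ n = w * f ^ (n - 1)) : ∃ c : k, G = algebraMap k F c * f := by
  rcases eq_or_ne G 0 with hG0 | hG0
  · exact ⟨0, by rw [hG0, map_zero, zero_mul]⟩
  have hw0 : w ≠ 0 := by
    rintro rfl
    rw [zero_mul] at h
    exact hG0 (pow_eq_zero_iff (by omega) |>.mp h)
  have h1 : G / f ∈ riemannRochSpace k F A := by
    rw [mem_rr hF _ (div_ne_zero hG0 hf)]
    intro P
    rw [ord_div hF P hG0 hf]
    have h2 : (n : ℤ) * ord P.ring G = ord P.ring w + (n - 1 : ℤ) * ord P.ring f := by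
      rw [← ord_pow hF P hG0, h, ord_mul hF P hw0 (pow_ne_zero _ hf), ord_pow hF P hf]
      congr 2
      omega
    have h3 := (mem_rr hF _ hw0).mp hw P
    have h4 := hdiv P
    have hn' : (0 : ℤ) < n := by exact_mod_cast hn
    have h5 : (n : ℤ) * (ord P.ring G - ord P.ring f + A P) = 
        ord P.ring w + Finsupp.single O ((n * m : ℕ) : ℤ) P := by
      linear_combination h2 - h4
    have h6 : 0 ≤ (n : ℤ) * (ord P.ring G - ord P.ring f + A P) := by rw [h5]; exact h3
    by_contra hneg
    push Not at hneg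
    nlinarith
  obtain ⟨c, hc⟩ := rr_eq_span hF hA hA1 h1
  exact ⟨c, by rw [hc, div_mul_cancel₀ _ hf]⟩

end Pool.Agent.M.FT9
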