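import Mathlib
import Pool.Agent.Helper17.FF.BaseChange
import Pool.Agent.Helper17.FF.ConstAct

/-!
# Ultrapowers of function fields
-/

set_option autoImplicit false
set_option linter.unusedSectionVars false

namespace Pool.Agent.M.FT9

open VC FF WithZero Polynomial IntermediateField
open scoped TensorProduct

universe u

/-! ## Ultrapowers of rings -/

/-- `q : A^I → B` is the ultrapower of `A` -/
structure IsUltra {I A B : Type*} [Ring A] [Ring B] (U : Filter I) (q : (I → A) →+* B) : Prop where
  surj : Function.Surjective q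
  zero : ∀ f, q f = 0 ↔ ∀ᶠ i in U, f i = 0

lemma IsUltra.eq_iff {I A B : Type*} [Ring A] [Ring B] {U : Filter I} {q : (I → A) →+* B}
    (h : IsUltra U q) {f g : I → A} : q f = q g ↔ ∀ᶠ i in U, f i = g i := by
  rw [← sub_eq_zero, ← map_sub, h.zero]
  simp only [Pi.sub_apply, sub_eq_zero]

lemma exists_ultra {I A : Type u} (U : Ultrafilter I) [Field A] :
    ∃ (B : Type u) (_ : Field B) (q : (I → A) →+* B), IsUltra (U : Filter I) q := by
  refine ⟨Filter.Germ (U : Filter I) A, inferInstance, Filter.Germ.coeRingHom (U : Filter I), ?_, ?_⟩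
  · intro y
    exact Filter.Germ.inductionOn y fun f => ⟨f, rfl⟩
  · intro f
    change ((f : Filter.Germ (U : Filter I) A) = ((0 : I → A) : Filter.Germ (U : Filter I) A)) ↔ _
    rw [Filter.Germ.coe_eq]
    rfl

lemma IsUltra.isAlgClosed {I A B : Type*} [Field A] [IsAlgClosed A] [Field B] {U : Filter I}
    {q : (I → A) →+* B} (h : IsUltra U q) : IsAlgClosed B := by
  apply IsAlgClosed.of_exists_root
  intro p hp hirr
  choose a ha using fun j => h.surj (p.coeff j)
  have hd : 0 < p.natDegree := hirr.natDegree_pos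
  have hroot : ∀ i, ∃ x : A, x ^ p.natDegree + ∑ j ∈ Finset.range p.natDegree, a j i * x ^ j = 0 := by
    intro i
    let r : A[X] := ∑ j ∈ Finset.range p.natDegree, C (a j i) * X ^ j
    have hr : r.degree < (p.natDegree : ℕ) := by
      have h1 : r = ∑ j : Fin p.natDegree, C (a j i) * X ^ (j : ℕ) :=
        Finset.sum_range fun j => C (a j i) * X ^ j
      rw [h1]
      exact degree_sum_fin_lt fun j : Fin p.natDegree => a j i
    obtain ⟨x, hx⟩ := IsAlgClosed.exists_root (X ^ p.natDegree + r) (by
      rw [degree_add_eq_left_of_degree_lt (by rwa [degree_X_pow]), degree_X_pow]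
      exact_mod_cast hd.ne')
    refine ⟨x, ?_⟩
    have h1 : (X ^ p.natDegree + r).eval x = 0 := hx
    rw [eval_add, eval_pow, eval_X, eval_finset_sum] at h1
    rw [← h1]
    congr 1
    apply Finset.sum_congr rfl
    intro j _
    rw [eval_mul, eval_C, eval_pow, eval_X]
  choose x hx using hroot
  refine ⟨q x, ?_⟩
  rw [hp.as_sum, eval_add, eval_pow, eval_X, eval_finset_sum, ← map_zero q]
  have e : (0 : I → A) = x ^ p.natDegree + ∑ j ∈ Finset.range p.natDegree, a j * x ^ j := by
    funext i
    rw [Pi.add_apply, Pi.pow_apply, Finset.sum_apply, Pi.zero_apply, ← hx i]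
    rfl
  rw [e, map_add, map_pow, map_sum]
  congr 1
  apply Finset.sum_congr rfl
  intro j _
  rw [eval_mul, eval_C, eval_pow, eval_X, map_mul, map_pow, ha]

/-! ## The embedding of the constant extension into the ultrapower -/

section emb

variable {k F Ω M E I : Type u} [Field k] [Field F] [Field Ω] [Field M] [Field E] [Algebra k F]
  [Algebra k Ω] [Algebra Ω M] [Algebra F M] [Algebra k M] [IsScalarTower k Ω M]
  [IsScalarTower k F M] {U : Filter I} {q : (I → k) →+* Ω} {qF : (I → F) →+* E}

theorem exists_emb (hM : IsConstExt k Ω F M) (hq : IsUltra U q) (hqF : IsUltra U qF)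
    (hqk : ∀ c : k, algebraMap k Ω c = q (fun _ => c)) :
    ∃ ι : M →+* E, (∀ a : I → k, ι (algebraMap Ω M (q a)) = qF (fun i => algebraMap k F (a i))) ∧
      ∀ f : F, ι (algebraMap F M f) = qF (fun _ => f) := by
  classical
  obtain ⟨q', hq'⟩ : ∃ q' : Ω →+* E, ∀ a, q' (q a) = qF (fun i => algebraMap k F (a i)) := by
    refine ⟨RingHom.liftOfSurjective q hq.surj ⟨qF.comp ((algebraMap k F).compLeft I), ?_⟩,
      fun a => RingHom.liftOfSurjective_comp_apply q hq.surj _ a⟩
    intro a ha
    rw [RingHom.mem_ker] at ha ⊢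
    rw [hq.zero] at ha
    change qF (fun i => algebraMap k F (a i)) = 0
    rw [hqF.zero]
    exact ha.mono fun i hi => by rw [hi, map_zero]
  let aΩ : Algebra Ω E := q'.toAlgebra
  let aF : Algebra F E := (qF.comp (Pi.constRingHom I F)).toAlgebra
  let ak : Algebra k E := (q'.comp (algebraMap k Ω)).toAlgebra
  have t1 : IsScalarTower k Ω E := IsScalarTower.of_algebraMap_eq fun _ => rfl
  have t2 : IsScalarTower k F E := IsScalarTower.of_algebraMap_eq fun c => by
    change q' (algebraMap k Ω c) = qF (fun _ => algebraMap k F c)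
    rw [hqk, hq']
  have hF' : ∀ f : F, algebraMap F E f = qF (fun _ => f) := fun _ => rfl
  have hΩ' : ∀ a, algebraMap Ω E (q a) = qF (fun i => algebraMap k F (a i)) := hq'
  have hinj : Function.Injective (prodMap k Ω F E) := by
    rw [injective_iff_map_eq_zero]
    intro x hx
    let b := Module.Basis.ofVectorSpace k F
    let b' := Algebra.TensorProduct.basis Ω b
    choose a ha using fun j => hq.surj (b'.repr x j)
    have h1 : x = ∑ j ∈ (b'.repr x).support, b'.repr x j • b' j := by
      conv_lhs => rw [← b'.linearCombination_repr x, Finsupp.linearCombination_apply, Finsupp.sum]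
    have h2 : prodMap k Ω F E x = qF (fun i => ∑ j ∈ (b'.repr x).support, a j i • b j) := by
      conv_lhs => rw [h1, map_sum]
      have e : (fun i => ∑ j ∈ (b'.repr x).support, a j i • b j) =
          ∑ j ∈ (b'.repr x).support, (fun i => a j i • b j) := by
        funext i
        rw [Finset.sum_apply]
      rw [e, map_sum]
      apply Finset.sum_congr rfl
      intro j _
      rw [Algebra.TensorProduct.basis_apply, TensorProduct.smul_tmul', smul_eq_mul, mul_one,
        prodMap_tmul, ← ha j, hΩ', hF', ← map_mul]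
      congr 1
      funext i
      rw [Pi.mul_apply, Algebra.smul_def]
    rw [h2, hqF.zero] at hx
    rw [← b'.repr.map_eq_zero_iff, ← Finsupp.support_eq_empty, Finset.eq_empty_iff_forall_notMem]
    intro j hj
    have h3 : b'.repr x j = 0 := by
      rw [← ha j, hq.zero]
      filter_upwards [hx] with i hi
      exact linearIndependent_iff'.mp b.linearIndependent _ (fun j => a j i) hi j hj
    exact (Finsupp.mem_support_iff.mp hj) h3
  let ip := prodAlg k Ω F M
  have hfr := hM.isFractionRing
  have hd : IsDomain (Ω ⊗[k] F) := hM.inj.isDomain (prodMap k Ω F M).toRingHom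
  have hinj' : Function.Injective (prodMap k Ω F E).toRingHom := hinj
  refine ⟨IsFractionRing.lift (A := Ω ⊗[k] F) (K := M) hinj', fun a => ?_, fun f => ?_⟩
  · have h1 : algebraMap Ω M (q a) = algebraMap (Ω ⊗[k] F) M (q a ⊗ₜ 1) := by
      change _ = prodMap k Ω F M (q a ⊗ₜ 1)
      rw [prodMap_tmul, map_one, mul_one]
    rw [h1, IsFractionRing.lift_algebraMap]
    change prodMap k Ω F E (q a ⊗ₜ 1) = _
    rw [prodMap_tmul, map_one, mul_one, hΩ']
  · have h1 : algebraMap F M f = algebraMap (Ω ⊗[k] F) M (1 ⊗ₜ f) := by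
      change _ = prodMap k Ω F M (1 ⊗ₜ f)
      rw [prodMap_tmul, map_one, one_mul]
    rw [h1, IsFractionRing.lift_algebraMap]
    change prodMap k Ω F E (1 ⊗ₜ f) = _
    rw [prodMap_tmul, map_one, one_mul, hF']

/-- Elements of the ultrapower of a finite dimensional space lie in `M`. -/
theorem star (hq : IsUltra U q) {ι : M →+* E}
    (hι : ∀ a : I → k, ι (algebraMap Ω M (q a)) = qF (fun i => algebraMap k F (a i)))
    (hι' : ∀ f : F, ι (algebraMap F M f) = qF (fun _ => f))
    (W : Submodule k F) [FiniteDimensional k W] {g : I → F} (hg : ∀ i, g i ∈ W) :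
    ∃ y ∈ Submodule.span Ω (algebraMap F M '' (W : Set F)), ι y = qF g := by
  let b := Module.finBasis k W
  let c : Fin (Module.finrank k W) → I → k := fun j i => b.repr ⟨g i, hg i⟩ j
  refine ⟨∑ j, q (c j) • algebraMap F M (b j), ?_, ?_⟩
  · apply Submodule.sum_mem
    intro j _
    exact Submodule.smul_mem _ _ (Submodule.subset_span ⟨b j, (b j).2, rfl⟩)
  · rw [map_sum]
    have e : g = ∑ j, fun i => algebraMap k F (c j i) * (b j : F) := by
      funext i
      rw [Finset.sum_apply]
      have h1 := congrArg Subtype.val (b.sum_repr ⟨g i, hg i⟩)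
      refine h1.symm.trans ?_
      push_cast
      apply Finset.sum_congr rfl
      intro j _
      rw [Algebra.smul_def]
    rw [e, map_sum]
    apply Finset.sum_congr rfl
    intro j _
    rw [Algebra.smul_def, map_mul, hι, hι', ← map_mul]
    rfl

/-- Conversely. -/
theorem unstar (hq : IsUltra U q) {ι : M →+* E}
    (hι : ∀ a : I → k, ι (algebraMap Ω M (q a)) = qF (fun i => algebraMap k F (a i)))
    (hι' : ∀ f : F, ι (algebraMap F M f) = qF (fun _ => f))
    (W : Submodule k F) {y : M} (hy : y ∈ Submodule.span Ω (algebraMap F M '' (W : Set F))) :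
    ∃ g : I → F, (∀ i, g i ∈ W) ∧ ι y = qF g := by
  induction hy using Submodule.span_induction with
  | mem x hx =>
    obtain ⟨f, hf, rfl⟩ := hx
    exact ⟨fun _ => f, fun _ => hf, hι' f⟩
  | zero => exact ⟨0, fun _ => W.zero_mem, by rw [map_zero, map_zero]⟩
  | add x y _ _ hx hy =>
    obtain ⟨g, hg, hg'⟩ := hx
    obtain ⟨h, hh, hh'⟩ := hy
    exact ⟨g + h, fun i => W.add_mem (hg i) (hh i), by rw [map_add, map_add, hg', hh']⟩
  | smul a x _ hx =>
    obtain ⟨g, hg, hg'⟩ := hx
    obtain ⟨c, rfl⟩ := hq.surj a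
    refine ⟨fun i => c i • g i, fun i => W.smul_mem _ (hg i), ?_⟩
    rw [Algebra.smul_def, map_mul, hι, hg', ← map_mul]
    congr 1
    funext i
    rw [Pi.mul_apply, Algebra.smul_def]

end emb

end Pool.Agent.M.FT9
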