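import Mathlib
import Pool.Agent.Helper9.M.Ultra
import Pool.Agent.Helper17.FF.Princ

/-!
# Specialisation of places of the ultrapower
-/

set_option autoImplicit false
set_option linter.unusedSectionVars false

namespace Pool.Agent.M.FT9

open VC FF WithZero Polynomial IntermediateField
open scoped TensorProduct

universe u

variable {k F Ω M E I : Type u} [Field k] [Field F] [Field Ω] [Field M] [Field E] [Algebra k F]
  [Algebra k Ω] [Algebra Ω M] [Algebra F M] [Algebra k M] [IsScalarTower k Ω M]
  [IsScalarTower k F M] [IsAlgClosed k] [IsAlgClosed Ω]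

/-- The function spaces of the constant extension. -/
theorem rr_lift [CharZero k] (hM : IsConstExt k Ω F M) (hF : IsFunctionField k F)
    (D : Place k F →₀ ℤ) :
    riemannRochSpace Ω M (lift hM hF D) =
      Submodule.span Ω (algebraMap F M '' (riemannRochSpace k F D : Set F)) := by
  have hMF := hM.isFunctionField hF
  have hfd := finite_rr hF D
  have hfdM := finite_rr hMF (lift hM hF D)
  have hle : Submodule.span Ω (algebraMap F M '' (riemannRochSpace k F D : Set F)) ≤
      riemannRochSpace Ω M (lift hM hF D) := by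
    rw [Submodule.span_le]
    rintro _ ⟨f, hf, rfl⟩
    rcases eq_or_ne f 0 with rfl | h0
    · rw [map_zero]; exact Submodule.zero_mem _
    · have h0' : algebraMap F M f ≠ 0 := (_root_.map_ne_zero _).mpr h0
      rw [SetLike.mem_coe, mem_rr hMF _ h0']
      intro Q
      have h1 := lift_nonneg hM hF (D := dv hF f + D) (fun P => by
        rw [Finsupp.add_apply, dv_apply]
        exact (mem_rr hF D h0).mp hf P) Q
      rw [map_add, lift_dv hM hF h0, Finsupp.add_apply, dv_apply] at h1
      exact h1
  symm
  apply Submodule.eq_of_le_of_finrank_le hle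
  have h1 : ell (lift hM hF D) = ell D := ell_lift hM hF D
  let b := Module.finBasis k (riemannRochSpace k F D)
  have hli : LinearIndependent Ω (fun j => algebraMap F M (b j : F)) :=
    hM.linearIndependent (b.linearIndependent.map' (Submodule.subtype _) (Submodule.ker_subtype _))
  have h2 := finrank_span_eq_card hli
  rw [Fintype.card_fin] at h2
  have h3 : Submodule.span Ω (Set.range fun j => algebraMap F M (b j : F)) ≤
      Submodule.span Ω (algebraMap F M '' (riemannRochSpace k F D : Set F)) := by
    apply Submodule.span_mono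
    rintro _ ⟨j, rfl⟩
    exact ⟨b j, (b j).2, rfl⟩
  have hfd' := Submodule.finiteDimensional_of_le hle
  have h4 := Submodule.finrank_mono h3
  unfold ell at h1
  have h5 : Module.finrank Ω (riemannRochSpace Ω M (lift hM hF D)) =
    Module.finrank k (riemannRochSpace k F D) := by exact_mod_cast h1
  omega

variable {U : Filter I} {q : (I → k) →+* Ω} {qF : (I → F) →+* E}

/-- the coordinates of an element of the ultrapower -/
theorem coords (hqF : IsUltra U qF) {ι : M →+* E}
    (hι : ∀ a : I → k, ι (algebraMap Ω M (q a)) = qF (fun i => algebraMap k F (a i)))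
    (hι' : ∀ f : F, ι (algebraMap F M f) = qF (fun _ => f))
    (W : Submodule k F) {r : ℕ} (b : Module.Basis (Fin r) k W) {g : I → F} (hg : ∀ i, g i ∈ W)
    {y : M} (hy : ι y = qF g) :
    y = ∑ j, algebraMap Ω M (q fun i => b.repr ⟨g i, hg i⟩ j) * algebraMap F M (b j) := by
  apply ι.injective
  rw [hy, map_sum]
  have e : g = ∑ j, fun i => algebraMap k F (b.repr ⟨g i, hg i⟩ j) * (b j : F) := by
    funext i
    rw [Finset.sum_apply]
    have h1 := congrArg Subtype.val (b.sum_repr ⟨g i, hg i⟩)
    refine h1.symm.trans ?_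
    push_cast
    apply Finset.sum_congr rfl
    intro j _
    rw [Algebra.smul_def]
  conv_lhs => rw [e, map_sum]
  apply Finset.sum_congr rfl
  intro j _
  rw [map_mul, hι, hι', ← map_mul]
  rfl

/-- **Specialisation.** -/
theorem spec (hM : IsConstExt k Ω F M) (hF : IsFunctionField k F) (hq : IsUltra U q)
    (hqF : IsUltra U qF) (hqk : ∀ c : k, algebraMap k Ω c = q (fun _ => c)) {ι : M →+* E}
    (hι : ∀ a : I → k, ι (algebraMap Ω M (q a)) = qF (fun i => algebraMap k F (a i)))
    (hι' : ∀ f : F, ι (algebraMap F M f) = qF (fun _ => f))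
    (O : Place k F) (W : Submodule k F) [FiniteDimensional k W]
    (hWO : ∀ P : Place k F, P ≠ O → ∀ f ∈ W, f ∈ P.ring) (hx : ∃ x ∈ W, x ∉ O.ring)
    (Q : Place Ω M) (hQ : ¬ Over Q O) {α β : I → F} (hα : ∀ i, α i ∈ W) (hβ : ∀ i, β i ∈ W)
    {a b : M} (ha : ι a = qF α) (hb : ι b = qF β) (haQ : a ∈ Q.ring.nonunits)
    (hbQ : b ∈ Q.ring.nonunits) :
    ∀ᶠ i in U, ∃ P : Place k F, P ≠ O ∧ α i ∈ P.ring.nonunits ∧ β i ∈ P.ring.nonunits := by
  classical
  have hMF := hM.isFunctionField hF
  set v := Module.finBasis k W with hv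
  set r := Module.finrank k W with hr
  have hvQ : ∀ j, algebraMap F M (v j : F) ∈ Q.ring := by
    intro j
    rcases hM.over_or_gen hF Q with ⟨P, hP⟩ | ⟨φ, hφ⟩
    · have hPO : P ≠ O := fun h => hQ (h ▸ hP)
      exact (hP _).mpr (hWO P hPO _ (v j).2)
    · exact hφ.mem _
  let c : Fin r → Ω := fun j => ev hMF Q ⟨algebraMap F M (v j : F), hvQ j⟩
  have hc : ∀ j, algebraMap F M (v j : F) - algebraMap Ω M (c j) ∈ Q.ring.nonunits :=
    fun j => ev_spec hMF Q ⟨algebraMap F M (v j : F), hvQ j⟩
  choose c' hc' using fun j => hq.surj (c j)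
  let jv : MvPolynomial (Fin r) k →ₐ[k] F := MvPolynomial.aeval fun j => (v j : F)
  let jc : MvPolynomial (Fin r) k →ₐ[k] Ω := MvPolynomial.aeval c
  let ψ : I → (MvPolynomial (Fin r) k →+* k) := fun i => MvPolynomial.eval fun j => c' j i
  -- evaluation at `Q`
  have h1 : ∀ p, algebraMap F M (jv p) ∈ Q.ring ∧
      algebraMap F M (jv p) - algebraMap Ω M (jc p) ∈ Q.ring.nonunits := by
    intro p
    induction p using MvPolynomial.induction_on with
    | C x =>
      have e1 : jv (MvPolynomial.C x) = algebraMap k F x := MvPolynomial.aeval_C _ _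
      have e2 : jc (MvPolynomial.C x) = algebraMap k Ω x := MvPolynomial.aeval_C _ _
      rw [e1, e2, ← IsScalarTower.algebraMap_apply k F M, ← IsScalarTower.algebraMap_apply k Ω M,
        sub_self]
      refine ⟨?_, zero_mem _⟩
      rw [IsScalarTower.algebraMap_apply k Ω M]
      exact Q.algebraMap_mem _
    | add p p' hp hp' =>
      rw [map_add, map_add, map_add, map_add]
      refine ⟨Q.ring.add_mem _ _ hp.1 hp'.1, ?_⟩
      have := add_mem hp.2 hp'.2
      convert this using 1
      ring
    | mul_X p j hp =>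
      have e1 : jv (MvPolynomial.X j) = v j := MvPolynomial.aeval_X _ _
      have e2 : jc (MvPolynomial.X j) = c j := MvPolynomial.aeval_X _ _
      rw [map_mul, map_mul, map_mul, map_mul, e1, e2]
      refine ⟨Q.ring.mul_mem _ _ hp.1 (hvQ j), ?_⟩
      have e3 : algebraMap F M (jv p) * algebraMap F M (v j : F) -
          algebraMap Ω M (jc p) * algebraMap Ω M (c j) =
          (algebraMap F M (jv p) - algebraMap Ω M (jc p)) * algebraMap F M (v j : F) +
          algebraMap Ω M (jc p) * (algebraMap F M (v j : F) - algebraMap Ω M (c j)) := by ring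
      rw [e3]
      apply add_mem
      · rw [mul_comm]
        exact mul_mem_nonunits (hvQ j) hp.2
      · exact mul_mem_nonunits (Q.algebraMap_mem _) (hc j)
  -- evaluation in the ultrapower
  have h2 : ∀ p, jc p = q fun i => ψ i p := by
    intro p
    have h3 : (jc : MvPolynomial (Fin r) k →+* Ω) = q.comp (Pi.ringHom ψ) := by
      apply MvPolynomial.ringHom_ext
      · intro x
        change jc (MvPolynomial.C x) = q fun i => ψ i (MvPolynomial.C x)
        have e2 : jc (MvPolynomial.C x) = algebraMap k Ω x := MvPolynomial.aeval_C _ _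
        rw [e2, hqk]
        congr 1
        funext i
        exact (MvPolynomial.eval_C x).symm
      · intro j
        change jc (MvPolynomial.X j) = q fun i => ψ i (MvPolynomial.X j)
        have e2 : jc (MvPolynomial.X j) = c j := MvPolynomial.aeval_X _ _
        rw [e2, ← hc']
        congr 1
        funext i
        exact (MvPolynomial.eval_X (f := fun j => c' j i) j).symm
    exact congrArg (fun f : MvPolynomial (Fin r) k →+* Ω => f p) h3
  have h3 : ∀ p, algebraMap F M (jv p) ∈ Q.ring.nonunits → ∀ᶠ i in U, ψ i p = 0 := by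
    intro p hp
    rw [← hq.zero, ← h2]
    have h4 := sub_mem hp (h1 p).2
    rw [sub_sub_cancel] at h4
    exact algebraMap_mem_nonunits Q h4
  -- the kernel
  have h4 : ∀ᶠ i in U, ∀ p, jv p = 0 → ψ i p = 0 := by
    obtain ⟨S, hS⟩ := (isNoetherian_def.mp (inferInstance : IsNoetherianRing (MvPolynomial (Fin r) k)))
      (RingHom.ker (jv : MvPolynomial (Fin r) k →+* F))
    have h5 : ∀ᶠ i in U, ∀ s ∈ S, ψ i s = 0 := by
      rw [Filter.eventually_all_finset]
      intro s hs
      apply h3
      have h6 : s ∈ RingHom.ker (jv : MvPolynomial (Fin r) k →+* F) := by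
        rw [← hS]
        exact Submodule.subset_span hs
      have h7 : jv s = 0 := h6
      rw [h7, map_zero]
      exact zero_mem _
    filter_upwards [h5] with i hi p hp
    have h6 : RingHom.ker (jv : MvPolynomial (Fin r) k →+* F) ≤ RingHom.ker (ψ i) := by
      rw [← hS]
      exact Submodule.span_le.mpr hi
    exact h6 hp
  -- the linear polynomials
  have h5 : ∀ {γ : I → F} (hγ : ∀ i, γ i ∈ W) {y : M} (hy : ι y = qF γ), y ∈ Q.ring.nonunits →
      ∃ p : I → MvPolynomial (Fin r) k, (∀ i, jv (p i) = γ i) ∧ ∀ᶠ i in U, ψ i (p i) = 0 := by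
    intro γ hγ y hy hyQ
    refine ⟨fun i => ∑ j, MvPolynomial.C (v.repr ⟨γ i, hγ i⟩ j) * MvPolynomial.X j, ?_, ?_⟩
    · intro i
      rw [map_sum]
      have h1 := congrArg Subtype.val (v.sum_repr ⟨γ i, hγ i⟩)
      refine Eq.trans ?_ h1
      push_cast
      apply Finset.sum_congr rfl
      intro j _
      rw [map_mul, Algebra.smul_def]
      congr 1
      · exact MvPolynomial.aeval_C _ _
      · exact MvPolynomial.aeval_X _ _
    · have h6 := coords hqF hι hι' W v hγ hy
      have h7 : y - algebraMap Ω M (∑ j, (q fun i => v.repr ⟨γ i, hγ i⟩ j) * c j) ∈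
          Q.ring.nonunits := by
        rw [h6, map_sum, ← Finset.sum_sub_distrib]
        apply sum_mem
        intro j _
        rw [map_mul, ← mul_sub]
        exact mul_mem_nonunits (Q.algebraMap_mem _) (hc j)
      have h8 := sub_mem hyQ h7
      rw [sub_sub_cancel] at h8
      have h9 := algebraMap_mem_nonunits Q h8
      rw [← hq.zero, ← h9]
      have e : (fun i => ψ i (∑ j, MvPolynomial.C (v.repr ⟨γ i, hγ i⟩ j) * MvPolynomial.X j)) =
          ∑ j, (fun i => v.repr ⟨γ i, hγ i⟩ j) * c' j := by
        funext i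
        rw [map_sum, Finset.sum_apply]
        apply Finset.sum_congr rfl
        intro j _
        rw [map_mul, Pi.mul_apply]
        congr 1
        · exact MvPolynomial.eval_C _
        · exact MvPolynomial.eval_X _
      rw [e, map_sum]
      apply Finset.sum_congr rfl
      intro j _
      rw [map_mul, hc']
  obtain ⟨p, hp, hp'⟩ := h5 hα ha haQ
  obtain ⟨p', hp1, hp1'⟩ := h5 hβ hb hbQ
  obtain ⟨x, hxW, hxO⟩ := hx
  -- `x` is a linear form
  let px : MvPolynomial (Fin r) k := ∑ j, MvPolynomial.C (v.repr ⟨x, hxW⟩ j) * MvPolynomial.X j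
  have hpx : jv px = x := by
    rw [map_sum]
    have h1 := congrArg Subtype.val (v.sum_repr ⟨x, hxW⟩)
    refine Eq.trans ?_ h1
    push_cast
    apply Finset.sum_congr rfl
    intro j _
    rw [map_mul, Algebra.smul_def]
    congr 1
    · exact MvPolynomial.aeval_C _ _
    · exact MvPolynomial.aeval_X _ _
  filter_upwards [h4, hp', hp1'] with i hi1 hi2 hi3
  obtain ⟨P, hP1, hP2⟩ := exists_place_of_hom (Ω := k) (M := F)
    (jv : MvPolynomial (Fin r) k →+* F) (ψ i)
    (fun a => ⟨MvPolynomial.C a, MvPolynomial.aeval_C _ _⟩) hi1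
    ⟨px - MvPolynomial.C (ψ i px), by
      rw [map_sub, sub_eq_zero]
      exact (MvPolynomial.eval_C _).symm, by
      intro h
      have h6 : jv px - jv (MvPolynomial.C (ψ i px)) = 0 := by
        rw [← map_sub]
        exact h
      have e1 : jv (MvPolynomial.C (ψ i px)) = algebraMap k F (ψ i px) := MvPolynomial.aeval_C _ _
      rw [hpx, e1, sub_eq_zero] at h6
      apply hxO
      rw [h6]
      exact O.algebraMap_mem _⟩
  refine ⟨P, ?_, ?_, ?_⟩
  · rintro rfl
    apply hxO
    rw [← hpx]
    exact hP1 px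
  · rw [← hp i]
    exact hP2 _ hi2
  · rw [← hp1 i]
    exact hP2 _ hi3

end Pool.Agent.M.FT9
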