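import Mathlib
import Pool.Agent.Helper9.M.Norm
import Pool.Agent.Helper9.M.Spec
import Pool.Agent.Helper17.FF.Rigid

/-!
# Functions all of whose orders are divisible by `n`: a rigid family is constant almost everywhere
-/

set_option autoImplicit false
set_option linter.unusedSectionVars false

namespace Pool.Agent.M.FT9

open VC FF WithZero Polynomial IntermediateField
open scoped TensorProduct

universe u

section aux

variable {k F : Type u} [Field k] [IsAlgClosed k] [Field F] [Algebra k F]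
  (hF : IsFunctionField k F)

include hF

lemma exists_pole {g : ℕ} (hg : IsGenus k F g) (O : Place k F) {N : ℕ} (hN : g < N) :
    ∃ x ∈ riemannRochSpace k F (Finsupp.single O (N : ℤ)), x ∉ O.ring := by
  classical
  by_contra hcon
  push Not at hcon
  have h1 : riemannRochSpace k F (Finsupp.single O (N : ℤ)) ≤
      riemannRochSpace k F (0 : Place k F →₀ ℤ) := by
    intro x hx
    rcases eq_or_ne x 0 with rfl | h0
    · exact Submodule.zero_mem _
    rw [mem_rr hF _ h0]
    intro P
    rw [Finsupp.coe_zero, Pi.zero_apply, add_zero]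
    by_cases hP : P = O
    · rw [hP]
      exact (ord_nonneg_iff hF O h0).mpr (hcon x hx)
    · have := (mem_rr hF _ h0).mp hx P
      rw [Finsupp.single_apply, if_neg (Ne.symm hP), add_zero] at this
      exact this
  have hfd := finite_rr hF (0 : Place k F →₀ ℤ)
  have h2 := Submodule.finrank_mono h1
  have h3 := ell_ge hg (Finsupp.single O (N : ℤ))
  rw [deg_single] at h3
  have h4 := ell_zero hF
  unfold ell at h3 h4
  omega

lemma rr_regular {O P : Place k F} (hP : P ≠ O) {N : ℤ} {x : F}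
    (hx : x ∈ riemannRochSpace k F (Finsupp.single O N)) : x ∈ P.ring := by
  classical
  rcases eq_or_ne x 0 with rfl | h0
  · exact P.ring.zero_mem
  have := (mem_rr hF _ h0).mp hx P
  rw [Finsupp.single_apply, if_neg (Ne.symm hP), add_zero] at this
  exact (ord_nonneg_iff hF P h0).mp this

end aux

theorem descend {k F I : Type u} [Field k] [IsAlgClosed k] [CharZero k] [Field F] [Algebra k F]
    (hF : IsFunctionField k F) (U : Ultrafilter I) (O : Place k F) {n m : ℕ} (hn : 0 < n)
    (f : I → F) (A : I → Place k F →₀ ℤ) (hf : ∀ i, f i ≠ 0) (hA : ∀ i P, 0 ≤ A i P)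
    (hA1 : ∀ i, ell (A i) = 1)
    (hdiv : ∀ i P, ord P.ring (f i) = n * A i P - Finsupp.single O ((n * m : ℕ) : ℤ) P) :
    ∃ f0 : F, f0 ≠ 0 ∧ ∀ᶠ i in (U : Filter I), ∃ c : k, f i = algebraMap k F c * f0 := by
  classical
  obtain ⟨g, hg⟩ := exists_genus hF
  have hn' : (0 : ℤ) < n := by exact_mod_cast hn
  have hdeg : ∀ i, deg (A i) = m := by
    intro i
    have h1 := deg_dv hF (hf i)
    have h2 : dv hF (f i) = n • A i - Finsupp.single O ((n * m : ℕ) : ℤ) := by
      ext P
      rw [dv_apply, hdiv, Finsupp.sub_apply, Finsupp.smul_apply, nsmul_eq_mul]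
    rw [h2, map_sub, map_nsmul, deg_single, nsmul_eq_mul] at h1
    push_cast at h1
    apply mul_left_cancel₀ hn'.ne'
    linarith
  have hAO : ∀ i, A i O ≤ m := by
    intro i
    rw [← hdeg i, ← deg_single O (A i O)]
    apply deg_mono
    intro P
    rw [Finsupp.single_apply]
    split_ifs with h
    · rw [h]
    · exact hA i P
  obtain ⟨N0, hN0⟩ := exists_gens hF hg O m
  set N := N0 + g + 1 with hN
  choose a b ha0 hb0 haN hbN haA hbA hab using fun i => hN0 N (by omega) (A i) (hA i) (hdeg i)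
  set W := riemannRochSpace k F (Finsupp.single O ((n * N : ℕ) : ℤ)) with hW
  set W1 := riemannRochSpace k F (Finsupp.single O ((n * m : ℕ) : ℤ)) with hW1
  set W2 := riemannRochSpace k F (Finsupp.single O (N : ℤ)) with hW2
  have : FiniteDimensional k W := finite_rr hF _
  have : FiniteDimensional k W1 := finite_rr hF _
  have : FiniteDimensional k W2 := finite_rr hF _
  have hfW1 : ∀ i, f i ∈ W1 := by
    intro i
    rw [hW1, mem_rr hF _ (hf i)]
    intro P
    rw [hdiv i P]
    have := hA i P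
    have := mul_nonneg hn'.le this
    linarith
  -- the quotients
  have hquot : ∀ (i : I) (x : F), x ≠ 0 → x ∈ W2 → (∀ P, P ≠ O → A i P ≤ ord P.ring x) →
      x ^ n / f i ∈ W := by
    intro i x hx0 hxN hxA
    rw [hW, mem_rr hF _ (div_ne_zero (pow_ne_zero _ hx0) (hf i))]
    intro P
    rw [ord_div hF P (pow_ne_zero _ hx0) (hf i), ord_pow hF P hx0, hdiv i P]
    have h1 := (mem_rr hF _ hx0).mp hxN P
    by_cases hP : P = O
    · rw [hP, Finsupp.single_eq_same] at h1
      rw [hP, Finsupp.single_eq_same, Finsupp.single_eq_same]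
      push_cast
      have h2 := hAO i
      have h3 := mul_nonneg hn'.le h1
      have h4 := mul_nonneg hn'.le (sub_nonneg.mpr h2)
      linarith
    · rw [Finsupp.single_apply, Finsupp.single_apply, if_neg (Ne.symm hP), if_neg (Ne.symm hP)]
      have h3 := mul_nonneg hn'.le (sub_nonneg.mpr (hxA P hP))
      linarith
  have hαW : ∀ i, a i ^ n / f i ∈ W := fun i => hquot i _ (ha0 i) (haN i) (haA i)
  have hβW : ∀ i, b i ^ n / f i ∈ W := fun i => hquot i _ (hb0 i) (hbN i) (hbA i)
  -- ultrapowers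
  obtain ⟨Ω, _, q, hq⟩ := exists_ultra (A := k) U
  obtain ⟨E, _, qF, hqF⟩ := exists_ultra (A := F) U
  have hΩ : IsAlgClosed Ω := hq.isAlgClosed
  let ak : Algebra k Ω := (q.comp (Pi.constRingHom I k)).toAlgebra
  have hqk : ∀ c : k, algebraMap k Ω c = q (fun _ => c) := fun _ => rfl
  obtain ⟨M, _, _, _, _, _, _, hM⟩ := exists_constExt k Ω F
  have hMF := hM.isFunctionField hF
  obtain ⟨ι, hι, hι'⟩ := exists_emb hM hq hqF hqk
  set QO := ab hM hF O with hQO
  -- star
  have hne : ∀ {y : M} {x : I → F}, ι y = qF x → (∀ i, x i ≠ 0) → y ≠ 0 := by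
    intro y x hy hx h0
    rw [h0, map_zero, eq_comm, hqF.zero] at hy
    obtain ⟨i, hi⟩ := hy.exists
    exact hx i hi
  have hord : ∀ {t : ℤ} {y : M}, y ≠ 0 →
      y ∈ Submodule.span Ω (algebraMap F M '' (riemannRochSpace k F (Finsupp.single O t) : Set F)) →
      ∀ Q, 0 ≤ ord Q.ring y + Finsupp.single QO t Q := by
    intro t y hy0 hy Q
    rw [← rr_lift hM hF, mem_rr hMF _ hy0, lift_single] at hy
    exact hy Q
  obtain ⟨fs, hfs, hfsι⟩ := star hq hι hι' W1 hfW1
  obtain ⟨as, has, hasι⟩ := star hq hι hι' W2 haN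
  obtain ⟨bs, hbs, hbsι⟩ := star hq hι hι' W2 hbN
  obtain ⟨αs, hαs, hαsι⟩ := star hq hι hι' W hαW
  obtain ⟨βs, hβs, hβsι⟩ := star hq hι hι' W hβW
  have hfs0 : fs ≠ 0 := hne hfsι hf
  have has0 : as ≠ 0 := hne hasι ha0
  have hbs0 : bs ≠ 0 := hne hbsι hb0
  have hαs0 : αs ≠ 0 := hne hαsι fun i => div_ne_zero (pow_ne_zero _ (ha0 i)) (hf i)
  have hβs0 : βs ≠ 0 := hne hβsι fun i => div_ne_zero (pow_ne_zero _ (hb0 i)) (hf i)
  have ea : as ^ n = αs * fs := by
    apply ι.injective
    rw [map_pow, map_mul, hasι, hαsι, hfsι, ← map_pow, ← map_mul]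
    congr 1
    funext i
    exact (div_mul_cancel₀ _ (hf i)).symm
  have eb : bs ^ n = βs * fs := by
    apply ι.injective
    rw [map_pow, map_mul, hbsι, hβsι, hfsι, ← map_pow, ← map_mul]
    congr 1
    funext i
    exact (div_mul_cancel₀ _ (hf i)).symm
  -- the orders of `fs` off `∞`
  have hfsQ : ∀ Q, Q ≠ QO → (n : ℤ) ∣ ord Q.ring fs ∧ 0 ≤ ord Q.ring fs := by
    intro Q hQ
    have h0 := hord hfs0 hfs Q
    rw [Finsupp.single_apply, if_neg (Ne.symm hQ), add_zero] at h0
    refine ⟨?_, h0⟩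
    have h1 := hord hαs0 hαs Q
    have h2 := hord hβs0 hβs Q
    rw [Finsupp.single_apply, if_neg (Ne.symm hQ), add_zero] at h1 h2
    have hnot : ¬ (αs ∈ Q.ring.nonunits ∧ βs ∈ Q.ring.nonunits) := by
      rintro ⟨h3, h4⟩
      have h5 := spec hM hF hq hqF hqk hι hι' O W (fun P hP x hx => rr_regular hF hP hx)
        (exists_pole hF hg O (by rw [hN]; nlinarith)) Q
        (fun h => hQ (eq_ab hM hF h)) hαW hβW hαsι hβsι h3 h4
      obtain ⟨i, P, hPO, hP1, hP2⟩ := h5.exists
      rw [← FF.ord_pos_iff hF P (div_ne_zero (pow_ne_zero _ (ha0 i)) (hf i)),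
        ord_div hF P (pow_ne_zero _ (ha0 i)) (hf i), ord_pow hF P (ha0 i), hdiv i P,
        Finsupp.single_apply, if_neg (Ne.symm hPO)] at hP1
      rw [← FF.ord_pos_iff hF P (div_ne_zero (pow_ne_zero _ (hb0 i)) (hf i)),
        ord_div hF P (pow_ne_zero _ (hb0 i)) (hf i), ord_pow hF P (hb0 i), hdiv i P,
        Finsupp.single_apply, if_neg (Ne.symm hPO)] at hP2
      rcases hab i P hPO with h | h
      · rw [h] at hP1; omega
      · rw [h] at hP2; omega
    have h3 : ord Q.ring αs = 0 ∨ ord Q.ring βs = 0 := by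
      by_contra hcon
      push Not at hcon
      apply hnot
      rw [← FF.ord_pos_iff hMF Q hαs0, ← FF.ord_pos_iff hMF Q hβs0]
      omega
    rcases h3 with h3 | h3
    · refine ⟨ord Q.ring as, ?_⟩
      rw [← ord_pow hMF Q has0, ea, ord_mul hMF Q hαs0 hfs0, h3, zero_add]
    · refine ⟨ord Q.ring bs, ?_⟩
      rw [← ord_pow hMF Q hbs0, eb, ord_mul hMF Q hβs0 hfs0, h3, zero_add]
  -- the divisor of `fs`
  set o := ord QO.ring fs with ho
  have hoge : - ((n * m : ℕ) : ℤ) ≤ o := by
    have h1 := hord hfs0 hfs QO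
    rw [Finsupp.single_eq_same] at h1
    linarith
  let X : Place Ω M →₀ ℤ := Finsupp.mapRange (fun z : ℤ => z / (n : ℤ)) (Int.zero_ediv _)
    (dv hMF fs - Finsupp.single QO o)
  have hXn : ∀ Q, ord Q.ring fs = n * X Q + Finsupp.single QO o Q := by
    intro Q
    change _ = n * ((dv hMF fs - Finsupp.single QO o) Q / (n : ℤ)) + _
    rw [Finsupp.sub_apply, dv_apply]
    by_cases hQ : Q = QO
    · rw [hQ, Finsupp.single_eq_same, ← ho, sub_self, Int.zero_ediv, mul_zero, zero_add]
    · rw [Finsupp.single_apply, if_neg (Ne.symm hQ), sub_zero, add_zero]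
      exact (Int.mul_ediv_cancel' (hfsQ Q hQ).1).symm
  have hX0 : ∀ Q, 0 ≤ X Q := by
    intro Q
    have h1 := hXn Q
    by_cases hQ : Q = QO
    · rw [hQ, Finsupp.single_eq_same, ← ho] at h1
      rw [hQ]
      have h2 : (n : ℤ) * X QO = 0 := by linarith
      rw [mul_eq_zero] at h2
      rcases h2 with h2 | h2
      · omega
      · rw [h2]
    · rw [Finsupp.single_apply, if_neg (Ne.symm hQ), add_zero] at h1
      have h2 := (hfsQ Q hQ).2
      rw [h1] at h2
      exact nonneg_of_mul_nonneg_right h2 hn'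
  -- rigidity of the divisor
  have hX1 : ell X = 1 := by
    have hle : riemannRochSpace Ω M X ≤ riemannRochSpace Ω M (0 : Place Ω M →₀ ℤ) := by
      intro y hy
      rcases eq_or_ne y 0 with hy0 | hy0
      · rw [hy0]; exact Submodule.zero_mem _
      have hyX := (mem_rr hMF _ hy0).mp hy
      have hG : y * fs ∈ riemannRochSpace Ω M (lift hM hF (Finsupp.single O ((n * m : ℕ) : ℤ))) := by
        rw [mem_rr hMF _ (mul_ne_zero hy0 hfs0), lift_single]
        intro Q
        rw [ord_mul hMF Q hy0 hfs0, hXn Q]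
        have h1 := hyX Q
        have h2 := hX0 Q
        have h3 : (0 : ℤ) ≤ (n - 1) * X Q := mul_nonneg (by omega) h2
        by_cases hQ : Q = QO
        · rw [hQ, Finsupp.single_eq_same, Finsupp.single_eq_same]
          rw [hQ] at h1 h3
          linarith
        · rw [Finsupp.single_apply, Finsupp.single_apply, if_neg (Ne.symm hQ), if_neg (Ne.symm hQ)]
          linarith
      have hw : y ^ n * fs ∈
          riemannRochSpace Ω M (lift hM hF (Finsupp.single O ((n * m : ℕ) : ℤ))) := by
        rw [mem_rr hMF _ (mul_ne_zero (pow_ne_zero _ hy0) hfs0), lift_single]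
        intro Q
        rw [ord_mul hMF Q (pow_ne_zero _ hy0) hfs0, ord_pow hMF Q hy0, hXn Q]
        have h3 := mul_nonneg hn'.le (hyX Q)
        by_cases hQ : Q = QO
        · rw [hQ, Finsupp.single_eq_same, Finsupp.single_eq_same]
          rw [hQ] at h3
          linarith
        · rw [Finsupp.single_apply, Finsupp.single_apply, if_neg (Ne.symm hQ), if_neg (Ne.symm hQ)]
          linarith
      rw [rr_lift hM hF] at hG hw
      obtain ⟨G', hG', hGι⟩ := unstar hq hι hι' _ hG
      obtain ⟨w', hw', hwι⟩ := unstar hq hι hι' _ hw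
      have h1 : (y * fs) ^ n = y ^ n * fs * fs ^ (n - 1) := by
        obtain ⟨n', rfl⟩ : ∃ n', n = n' + 1 := ⟨n - 1, by omega⟩
        rw [Nat.add_sub_cancel]
        ring
      have h2 := congrArg ι h1
      rw [map_pow, map_mul ι (y ^ n * fs), map_pow ι fs, hGι, hwι, hfsι, ← map_pow, ← map_pow,
        ← map_mul, hqF.eq_iff] at h2
      have h3 : ∀ i, ∃ c : k, G' i ^ n = w' i * f i ^ (n - 1) → G' i = algebraMap k F c * f i := by
        intro i
        by_cases h : G' i ^ n = w' i * f i ^ (n - 1)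
        · obtain ⟨c, hc⟩ := eq_smul_of_pow hF (hA i) (hA1 i) hn (hf i) (hdiv i) (hG' i) (hw' i) h
          exact ⟨c, fun _ => hc⟩
        · exact ⟨0, fun h' => absurd h' h⟩
      choose c hc using h3
      have h4 : y * fs = algebraMap Ω M (q c) * fs := by
        apply ι.injective
        rw [hGι, map_mul, hι, hfsι, ← map_mul, hqF.eq_iff]
        filter_upwards [h2] with i hi
        exact hc i hi
      have h5 := mul_right_cancel₀ hfs0 h4
      rw [rr_zero_eq hMF, Submodule.mem_span_singleton]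
      exact ⟨q c, by rw [h5, Algebra.smul_def, mul_one]⟩
    have heq := le_antisymm hle (rr_mono hMF fun Q => by
      rw [Finsupp.coe_zero, Pi.zero_apply]; exact hX0 Q)
    have h0 := ell_zero hMF
    unfold ell at h0 ⊢
    rw [heq]
    exact h0
  -- rigidity
  have hK : ∀ x : Ω, x ∉ (⊥ : IntermediateField k Ω) → Transcendental (⊥ : IntermediateField k Ω) x := by
    intro x hx halg
    have h1 : Algebra.IsAlgebraic k (⊥ : IntermediateField k Ω) := inferInstance
    have h2 : IsAlgebraic k x := halg.restrictScalars k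
    obtain ⟨e, he⟩ := exists_const_of_not_transcendental (k := k) (f := x) (not_not.mpr h2)
    exact hx (IntermediateField.mem_bot.mpr ⟨e, he⟩)
  have hrig := rigidity hM hF (⊥ : IntermediateField k Ω) hK (E := X) (A := - Finsupp.single QO o)
    hX0 hX1 hn.ne' (fun Q hQ φ hφ => by
      exfalso
      have h1 : Q = QO := by
        by_contra h
        apply hQ
        rw [Finsupp.neg_apply, Finsupp.single_apply, if_neg (Ne.symm h), neg_zero]
      rw [h1] at hφ
      exact not_over_of_gen hφ (ab_over hM hF O)) hfs0 (fun Q => by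
      rw [Finsupp.neg_apply, sub_neg_eq_add]
      exact hXn Q)
  obtain ⟨c, f0, hc0, hf0, hcf⟩ := principal_descent hM hF hfs0 (fun Q hQ => by
    by_cases hQO' : Q = QO
    · exact ⟨O, hQO' ▸ ab_over hM hF O⟩
    have hXQ : X Q ≠ 0 := by
      intro h
      apply hQ
      rw [hXn Q, h, mul_zero, zero_add, Finsupp.single_apply, if_neg (Ne.symm hQO')]
    rcases hM.over_or_gen hF Q with h | ⟨φ, hφ⟩
    · exact h
    · exfalso
      have h1 := hrig Q hXQ φ hφ
      obtain ⟨x, hx, -⟩ := id hF
      obtain ⟨e, he⟩ := IntermediateField.mem_bot.mp (h1 x)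
      have h2 : φ (algebraMap k F e) = φ x := by rw [AlgHom.commutes, he]
      have h3 := φ.toRingHom.injective h2
      apply hx
      rw [← h3]
      exact isAlgebraic_algebraMap _)
  obtain ⟨c', rfl⟩ := hq.surj c
  refine ⟨f0, hf0, ?_⟩
  have h1 := congrArg ι hcf
  rw [hfsι, map_mul, hι, hι', ← map_mul, hqF.eq_iff] at h1
  filter_upwards [h1] with i hi
  exact ⟨c' i, hi⟩

end Pool.Agent.M.FT9
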