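import Mathlib
import Pool.Agent.Helper9.M.Descend

/-!
# Finitely many classes of functions all of whose orders are divisible by `n`
-/

set_option autoImplicit false
set_option linter.unusedSectionVars false

namespace Pool.Agent.M.FT9

open VC FF WithZero Polynomial IntermediateField

theorem finite_classes {k F : Type} [Field k] [IsAlgClosed k] [CharZero k] [Field F] [Algebra k F]
    (hF : IsFunctionField k F) {n : ℕ} (hn : 0 < n) :
    ∃ T : Finset F, (∀ t ∈ T, t ≠ 0) ∧ ∀ f : F, f ≠ 0 →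
      (∀ P : Place k F, (n : ℤ) ∣ ord P.ring f) → ∃ t ∈ T, ∃ l : F, f = t * l ^ n := by
  classical
  by_contra hcon
  push Not at hcon
  obtain ⟨g, hg⟩ := exists_genus hF
  obtain ⟨x, hx, -⟩ := id hF
  obtain ⟨O, -⟩ := exists_place hx
  have hn' : (0 : ℤ) < n := by exact_mod_cast hn
  obtain ⟨f, hf, hff⟩ := exists_seq_of_forall_finset_exists
    (fun f : F => f ≠ 0 ∧ ∀ P : Place k F, (n : ℤ) ∣ ord P.ring f)
    (fun x y => ∀ l : F, y ≠ x * l ^ n) (by
      intro s hs
      obtain ⟨y, hy0, hy, hy'⟩ := hcon s (fun t ht => (hs t ht).1)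
      exact ⟨y, ⟨hy0, hy⟩, fun x hx l => hy' x hx l⟩)
  have hnorm : ∀ i, ∃ (m : ℕ) (l : F) (A : Place k F →₀ ℤ), m ≤ g ∧ l ≠ 0 ∧ (∀ P, 0 ≤ A P) ∧
      ell A = 1 ∧ ∀ P, ord P.ring (f i * l ^ n) =
        n * A P - Finsupp.single O ((n * m : ℕ) : ℤ) P := by
    intro i
    let D : Place k F →₀ ℤ :=
      Finsupp.mapRange (fun z : ℤ => z / (n : ℤ)) (Int.zero_ediv _) (dv hF (f i))
    have hD : ∀ P, ord P.ring (f i) = n * D P := by
      intro P
      change _ = n * (ord P.ring (f i) / (n : ℤ))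
      exact (Int.mul_ediv_cancel' ((hf i).2 P)).symm
    have hdeg : deg D = 0 := by
      have h1 : dv hF (f i) = n • D := by
        ext P
        rw [dv_apply, hD, Finsupp.smul_apply, nsmul_eq_mul]
      have h2 := deg_dv hF (hf i).1
      rw [h1, map_nsmul, nsmul_eq_mul, mul_eq_zero] at h2
      rcases h2 with h2 | h2
      · exact absurd h2 hn'.ne'
      · exact h2
    obtain ⟨m, l, hm, hl, h1, h2⟩ := exists_norm hF hg O hdeg
    refine ⟨m, l, _, hm, hl, h1, h2, fun P => ?_⟩
    rw [FF.ord_mul hF P (hf i).1 (pow_ne_zero _ hl), FF.ord_pow hF P hl, hD, Finsupp.add_apply,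
      Finsupp.add_apply, dv_apply, Finsupp.single_apply, Finsupp.single_apply]
    split_ifs
    · push_cast; ring
    · ring
  choose m l A hm hl hA hA1 hdiv using hnorm
  let μ : ℕ → Fin (g + 1) := fun i => ⟨m i, by have := hm i; omega⟩
  obtain ⟨m0, hm0⟩ := Finite.exists_infinite_fiber μ
  have hI : Infinite (μ ⁻¹' {m0}) := hm0
  have hmm : ∀ i : μ ⁻¹' {m0}, m i = m0 := by
    intro i
    have := i.2
    rw [Set.mem_preimage, Set.mem_singleton_iff] at this
    exact congrArg Fin.val this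
  obtain ⟨f0, hf0, hev⟩ := descend hF (Filter.hyperfilter (μ ⁻¹' {m0})) O hn
    (fun i : μ ⁻¹' {m0} => f i * l i ^ n) (fun i => A i)
    (fun i => mul_ne_zero (hf i).1 (pow_ne_zero _ (hl i))) (fun i => hA i) (fun i => hA1 i)
    (m := m0) (fun i P => by rw [← hmm i]; exact hdiv i P)
  have hinf := Filter.frequently_cofinite_iff_infinite.mp
    (hev.frequently.filter_mono Filter.hyperfilter_le_cofinite)
  obtain ⟨i, ⟨c, hc⟩, j, ⟨c', hc'⟩, hij⟩ := hinf.nontrivial
  have hij' : (i : ℕ) ≠ j := fun h => hij (Subtype.ext h)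
  -- equal classes
  have key : ∀ (i j : ℕ) (c c' : k), f i * l i ^ n = algebraMap k F c * f0 →
      f j * l j ^ n = algebraMap k F c' * f0 → ∃ e : F, f j = f i * e ^ n := by
    intro i j c c' hc hc'
    have hc0 : c ≠ 0 := by
      rintro rfl
      rw [map_zero, zero_mul] at hc
      exact mul_ne_zero (hf i).1 (pow_ne_zero _ (hl i)) hc
    obtain ⟨d, hd⟩ := IsAlgClosed.exists_pow_nat_eq (c' / c) hn
    refine ⟨algebraMap k F d * l i / l j, ?_⟩
    have h1 : algebraMap k F c ≠ 0 := (_root_.map_ne_zero _).mpr hc0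
    have h2 : algebraMap k F d ^ n * algebraMap k F c = algebraMap k F c' := by
      rw [← map_pow, hd, ← map_mul, div_mul_cancel₀ _ hc0]
    have h3 : l j ^ n ≠ 0 := pow_ne_zero _ (hl j)
    apply mul_right_cancel₀ h3
    rw [div_pow, mul_pow, hc']
    have e : f i * (algebraMap k F d ^ n * l i ^ n / l j ^ n) * l j ^ n =
        (f i * l i ^ n) * algebraMap k F d ^ n := by
      field_simp
    rw [e, hc, ← h2]
    ring
  rcases lt_or_gt_of_ne hij' with h | h
  · obtain ⟨e, he⟩ := key i j c c' hc hc'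
    exact hff i j h e he
  · obtain ⟨e, he⟩ := key j i c' c hc' hc
    exact hff j i h e he

end Pool.Agent.M.FT9
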