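import Mathlib
import Pool.Agent.Helper9.M.Classes
import Pool.Agent.Helper13.M.Defs

/-!
# Project M, block FT
-/

set_option autoImplicit false

namespace Pool.Agent.M

theorem fT : StmtFT := by
  intro E F _ _ _ _ _ hF n hn
  exact FT9.finite_classes hF hn

end Pool.Agent.M
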